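import Pool.Agent.H95.Gb2

set_option autoImplicit false

open Cardinal Pool.Agent.H95.GbDefs

universe u

theorem Pool.Agent.Results.MP_f4bae3_lc.Closure.result (l : Cardinal.{u}) (hl : l.IsRegular)
    (h0 : ℵ₀ < l) (h2 : 2 ^< l = l) (X Y : Set (GB l)) :
    IsLeast {C : Set (X → Y) | (∀ f, Continuous f → f ∈ C) ∧
      ∀ κ : Cardinal.{u}, κ.IsRegular → κ ≤ l → Lim κ C ⊆ C} (Bor l) :=
  Pool.Agent.H95.Gb2.q1 hl h0 h2 X Y
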