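import Pool.Agent.H95.Gb2

set_option autoImplicit false

open Cardinal Pool.Agent.H95.GbDefs

universe u

theorem Pool.Agent.Results.MP_f4bae3_lc.LimitLevel.result (l : Cardinal.{u}) (hl : l.IsRegular)
    (h0 : ℵ₀ < l) (h2 : 2 ^< l = l) (ξ : Ordinal.{u}) (h1 : Order.IsSuccLimit ξ)
    (h3 : ξ < (Order.succ l).ord) (h4 : ξ.cof < l) :
    ¬ (Meas l (ξ + 1) : Set (GB l → GB l)) ⊆ Lim l (HatLim l ξ ξ.cof (⋃ η < ξ, Meas l η)) :=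
  Pool.Agent.H95.Gb2.q2 hl h0 h2 ξ h1 h3 h4
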